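import Pool.Agent.Q224.ID.Comp

/-!
# The infinite defect of a finite word is computable

Words are lists of natural numbers (the letters).  `Q224.ID.extensionDefects w` is the set of the
defects of all right-infinite, left-infinite and two-way infinite words which have `w` as a factor
and use only letters of `w`; its least element is the infinite defect of `w`.
-/

set_option autoImplicit false

namespace Pool.Agent.Results.MP_a1720d_lc.InfiniteDefectComputable

open Q224.ID

/-- There is a computable function which gives the infinite defect of every nonempty word. -/
theorem result : ∃ f : List ℕ → ℕ, Computable f ∧
    ∀ w : List ℕ, w ≠ [] → IsLeast (extensionDefects w) (f w : ℕ∞) :=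
  Q224.ID.main

end Pool.Agent.Results.MP_a1720d_lc.InfiniteDefectComputable
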